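import Mathlib

set_option autoImplicit false

/-!
# A gap-free graph whose 3-connected ideal has no linear quotients

Let `G` be the complement of the graph of the icosahedron. It is gap-free. The triples that do not
induce a connected subgraph of `G` carry a function that shows that the 2-cycle formed by the 20
triangles of the icosahedron is not a boundary; an order of the generators with linear quotients
would allow one to extend this function to all triples, which is impossible.
-/

namespace Pool.Agent.Results.MP_c1f45e_al.Icosahedron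

open MvPolynomial

/-- `G` is gap-free: two disjoint edges are always joined by an edge. -/
def GapFree {V : Type} (G : SimpleGraph V) : Prop :=
  ∀ a b c d : V, G.Adj a b → G.Adj c d → a ≠ c → a ≠ d → b ≠ c → b ≠ d →
    G.Adj a c ∨ G.Adj a d ∨ G.Adj b c ∨ G.Adj b d

/-- The `t`-connected ideal of `G`. -/
noncomputable def connIdeal {n : ℕ} (K : Type) [Field K] (G : SimpleGraph (Fin n)) (t : ℕ) :
    Ideal (MvPolynomial (Fin n) K) :=
  Ideal.span {f | ∃ S : Finset (Fin n), S.card = t ∧ (G.induce (S : Set (Fin n))).Connected ∧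
    f = ∏ v ∈ S, X v}

/-- `m` is the exponent of a minimal monomial generator of the monomial ideal `I`. -/
def IsMinGen {n : ℕ} {K : Type} [Field K] (I : Ideal (MvPolynomial (Fin n) K))
    (m : Fin n →₀ ℕ) : Prop :=
  monomial m (1 : K) ∈ I ∧ ∀ m', monomial m' (1 : K) ∈ I → m' ≤ m → m' = m

/-- The monomial ideal `I` has linear quotients: the exponents of its minimal monomial generators
can be listed without repetition so that for every splitting `L₁ ++ m :: L₂` of the list with `L₁`
nonempty the colon ideal `(L₁) : m` is generated by a set `A` of variables. -/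
def HasLinearQuotients {n : ℕ} {K : Type} [Field K] (I : Ideal (MvPolynomial (Fin n) K)) : Prop :=
  ∃ L : List (Fin n →₀ ℕ), L.Nodup ∧ (∀ m, m ∈ L ↔ IsMinGen I m) ∧
    ∀ (L₁ : List (Fin n →₀ ℕ)) (m : Fin n →₀ ℕ) (L₂ : List (Fin n →₀ ℕ)),
      L = L₁ ++ m :: L₂ → L₁ ≠ [] → ∃ A : Set (Fin n), ∀ f : MvPolynomial (Fin n) K,
        f * monomial m (1 : K) ∈ Ideal.span ((fun m' => monomial m' (1 : K)) '' {m' | m' ∈ L₁}) ↔
          f ∈ Ideal.span ((X : Fin n → MvPolynomial (Fin n) K) '' A)

/-! ### The combinatorial core -/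

section core

variable {V : Type} [DecidableEq V]

/-- The sum of `ψ` over the sets obtained from `T` by removing one element. -/
def dl (ψ : Finset V → ZMod 2) (T : Finset V) : ZMod 2 := ∑ x ∈ T, ψ (T.erase x)

theorem two_zmod (x : ZMod 2) : x + x = 0 := CharTwo.add_self_eq_zero x

theorem dl_dl (ψ : Finset V → ZMod 2) (Q : Finset V) : ∑ y ∈ Q, dl ψ (Q.erase y) = 0 := by
  unfold dl
  rw [Finset.sum_sigma']
  refine Finset.sum_involution (fun p _ => ⟨p.2, p.1⟩) ?_ ?_ ?_ ?_
  · rintro ⟨y, x⟩ _
    simp only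
    rw [Finset.erase_right_comm]
    exact two_zmod _
  · rintro ⟨y, x⟩ h _ h2
    simp only [Finset.mem_sigma, Finset.mem_erase] at h
    simp only [Sigma.mk.injEq] at h2
    exact h.2.1 h2.1
  · rintro ⟨y, x⟩ h
    simp only [Finset.mem_sigma, Finset.mem_erase] at h ⊢
    exact ⟨h.2.2, fun h3 => h.2.1 h3.symm, h.1⟩
  · rintro ⟨y, x⟩ _
    rfl

theorem step (C : Set (Finset V)) (φ ψ : Finset V → ZMod 2) (P : List (Finset V)) (S : Finset V)
    (hS : S.card = 3) (hSC : S ∈ C)
    (star : ∀ R ∈ P, ∃ R' ∈ P, ∃ v ∈ R, v ∉ S ∧ R' ⊆ insert v S)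
    (h1 : ∀ R, R ∉ C → ψ R = φ R)
    (h2 : ∀ T : Finset V, T.card = 4 → (∀ R ∈ P ++ [S], ¬ R ⊆ T) → dl ψ T = 0) :
    ∃ ψ' : Finset V → ZMod 2, (∀ R, R ∉ C → ψ' R = φ R) ∧
      ∀ T : Finset V, T.card = 4 → (∀ R ∈ P, ¬ R ⊆ T) → dl ψ' T = 0 := by
  have hmem : ∀ T : Finset V, (∀ R ∈ P, ¬ R ⊆ T) → ¬ S ⊆ T → ∀ R ∈ P ++ [S], ¬ R ⊆ T := by
    intro T hT hST R hR
    rcases List.mem_append.1 hR with h | h
    · exact hT R h
    · rw [List.mem_singleton.1 h]
      exact hST
  have hins : ∀ T : Finset V, T.card = 4 → S ⊆ T → ∃ w, w ∉ S ∧ T = insert w S := by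
    intro T hT hST
    obtain ⟨w, hw⟩ : ∃ w, T \ S = {w} := by
      rw [← Finset.card_eq_one, Finset.card_sdiff_of_subset hST, hT, hS]
    have hw2 : w ∈ T \ S := by rw [hw]; exact Finset.mem_singleton_self w
    refine ⟨w, (Finset.mem_sdiff.1 hw2).2, ?_⟩
    rw [← Finset.sdiff_union_of_subset hST, hw]
    rfl
  by_cases hv : ∃ v, v ∉ S ∧ ∀ R ∈ P, ¬ R ⊆ insert v S
  · obtain ⟨v, hvS, hvP⟩ := hv
    obtain ⟨c, hc⟩ : ∃ c, c = ∑ x ∈ S, ψ ((insert v S).erase x) := ⟨_, rfl⟩
    have hupd : ∀ R : Finset V, R ≠ S → Function.update ψ S c R = ψ R :=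
      fun R hR => Function.update_of_ne hR _ _
    refine ⟨Function.update ψ S c, ?_, ?_⟩
    · intro R hR
      rw [hupd R (fun h => hR (by rw [h]; exact hSC)), h1 R hR]
    · have hkeep : ∀ T : Finset V, ¬ S ⊆ T → dl (Function.update ψ S c) T = dl ψ T := by
        intro T hST
        refine Finset.sum_congr rfl fun x _ => ?_
        refine hupd _ (fun h => hST ?_)
        rw [← h]
        exact Finset.erase_subset x T
      have hbase : dl (Function.update ψ S c) (insert v S) = 0 := by
        have h3 : ∑ x ∈ S, Function.update ψ S c ((insert v S).erase x) = c := by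
          rw [hc]
          refine Finset.sum_congr rfl fun x hx => ?_
          rw [← hc]
          refine hupd _ (fun h => hvS ?_)
          rw [← h]
          refine Finset.mem_erase.2 ⟨fun h3 => hvS (by rw [h3]; exact hx),
            Finset.mem_insert_self v S⟩
        unfold dl
        rw [Finset.sum_insert hvS, Finset.erase_insert hvS, Function.update_self, h3]
        exact two_zmod c
      intro T hT hTP
      by_cases hST : S ⊆ T
      · obtain ⟨w, hwS, rfl⟩ := hins T hT hST
        by_cases hwv : w = v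
        · rw [hwv]
          exact hbase
        · have hwv' : w ∉ insert v S := by
            rw [Finset.mem_insert]
            rintro (h | h)
            · exact hwv h
            · exact hwS h
          have hvw' : v ∉ insert w S := by
            rw [Finset.mem_insert]
            rintro (h | h)
            · exact hwv h.symm
            · exact hvS h
          have hd := dl_dl (Function.update ψ S c) (insert w (insert v S))
          rw [Finset.sum_insert hwv', Finset.erase_insert hwv', hbase, zero_add,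
            Finset.sum_insert hvS, Finset.insert_comm w v S, Finset.erase_insert hvw'] at hd
          have hz : ∑ s ∈ S, dl (Function.update ψ S c) ((insert v (insert w S)).erase s) = 0 := by
            refine Finset.sum_eq_zero fun s hs => ?_
            have hsS : ¬ S ⊆ (insert v (insert w S)).erase s := fun h =>
              (Finset.notMem_erase s _) (h hs)
            rw [hkeep _ hsS]
            refine h2 _ ?_ (hmem _ ?_ hsS)
            · rw [Finset.card_erase_of_mem (Finset.mem_insert_of_mem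
                (Finset.mem_insert_of_mem hs)), Finset.card_insert_of_notMem hvw',
                Finset.card_insert_of_notMem hwS, hS]
            · intro R hR hRs
              obtain ⟨R', hR', x, hx, hxS, hsub⟩ := star R hR
              have hx2 := Finset.mem_of_mem_erase (hRs hx)
              rw [Finset.mem_insert, Finset.mem_insert] at hx2
              rcases hx2 with h | h | h
              · rw [h] at hsub
                exact hvP R' hR' hsub
              · rw [h] at hsub
                exact hTP R' hR' hsub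
              · exact hxS h
          rw [hz, add_zero] at hd
          exact hd
      · rw [hkeep T hST]
        exact h2 T hT (hmem T hTP hST)
  · refine ⟨ψ, h1, ?_⟩
    intro T hT hTP
    by_cases hST : S ⊆ T
    · obtain ⟨w, hwS, rfl⟩ := hins T hT hST
      exact absurd ⟨w, hwS, hTP⟩ hv
    · exact h2 T hT (hmem T hTP hST)

theorem core (C : Set (Finset V)) (φ : Finset V → ZMod 2) (P : List (Finset V)) :
    (∀ S ∈ P, S.card = 3 ∧ S ∈ C) →
    (∀ (P' : List (Finset V)) (S : Finset V) (P'' : List (Finset V)), P = P' ++ S :: P'' →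
      ∀ R ∈ P', ∃ R' ∈ P', ∃ v ∈ R, v ∉ S ∧ R' ⊆ insert v S) →
    (∃ ψ : Finset V → ZMod 2, (∀ R, R ∉ C → ψ R = φ R) ∧
      ∀ T : Finset V, T.card = 4 → (∀ R ∈ P, ¬ R ⊆ T) → dl ψ T = 0) →
    ∃ ψ : Finset V → ZMod 2, (∀ R, R ∉ C → ψ R = φ R) ∧
      ∀ T : Finset V, T.card = 4 → dl ψ T = 0 := by
  induction P using List.reverseRecOn with
  | nil =>
    rintro _ _ ⟨ψ, h1, h2⟩
    exact ⟨ψ, h1, fun T hT => h2 T hT fun R hR => absurd hR List.not_mem_nil⟩
  | append_singleton P S ih =>
    rintro hP hs ⟨ψ, h1, h2⟩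
    refine ih (fun R hR => hP R (List.mem_append_left _ hR)) ?_ ?_
    · intro P' R P'' h
      refine hs P' R (P'' ++ [S]) ?_
      rw [h, List.append_assoc, List.cons_append]
    · have hS := hP S (List.mem_append_right _ (List.mem_singleton_self S))
      exact step C φ ψ P S hS.1 hS.2 (hs P S [] rfl) h1 h2

theorem dl4 (ψ : Finset V → ZMod 2) {a b c d : V} (hab : a ≠ b) (hac : a ≠ c) (had : a ≠ d)
    (hbc : b ≠ c) (hbd : b ≠ d) (hcd : c ≠ d) :
    dl ψ {a, b, c, d} = ψ {b, c, d} + ψ {a, c, d} + ψ {a, b, d} + ψ {a, b, c} := by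
  unfold dl
  rw [Finset.sum_insert (by simp [hab, hac, had]), Finset.sum_insert (by simp [hbc, hbd]),
    Finset.sum_insert (by simp [hcd]), Finset.sum_singleton]
  have e1 : ({a, b, c, d} : Finset V).erase a = {b, c, d} :=
    Finset.erase_insert (by simp [hab, hac, had])
  have e2 : ({a, b, c, d} : Finset V).erase b = {a, c, d} := by
    ext x
    simp only [Finset.mem_erase, Finset.mem_insert, Finset.mem_singleton]
    constructor
    · rintro ⟨h2, h3 | h3 | h3 | h3⟩
      · exact Or.inl h3
      · exact absurd h3 h2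
      · exact Or.inr (Or.inl h3)
      · exact Or.inr (Or.inr h3)
    · rintro (h3 | h3 | h3)
      · exact ⟨h3 ▸ hab, Or.inl h3⟩
      · exact ⟨h3 ▸ hbc.symm, Or.inr (Or.inr (Or.inl h3))⟩
      · exact ⟨h3 ▸ hbd.symm, Or.inr (Or.inr (Or.inr h3))⟩
  have e3 : ({a, b, c, d} : Finset V).erase c = {a, b, d} := by
    ext x
    simp only [Finset.mem_erase, Finset.mem_insert, Finset.mem_singleton]
    constructor
    · rintro ⟨h2, h3 | h3 | h3 | h3⟩
      · exact Or.inl h3
      · exact Or.inr (Or.inl h3)
      · exact absurd h3 h2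
      · exact Or.inr (Or.inr h3)
    · rintro (h3 | h3 | h3)
      · exact ⟨h3 ▸ hac, Or.inl h3⟩
      · exact ⟨h3 ▸ hbc, Or.inr (Or.inl h3)⟩
      · exact ⟨h3 ▸ hcd.symm, Or.inr (Or.inr (Or.inr h3))⟩
  have e4 : ({a, b, c, d} : Finset V).erase d = {a, b, c} := by
    ext x
    simp only [Finset.mem_erase, Finset.mem_insert, Finset.mem_singleton]
    constructor
    · rintro ⟨h2, h3 | h3 | h3 | h3⟩
      · exact Or.inl h3
      · exact Or.inr (Or.inl h3)
      · exact Or.inr (Or.inr h3)
      · exact absurd h3 h2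
    · rintro (h3 | h3 | h3)
      · exact ⟨h3 ▸ had, Or.inl h3⟩
      · exact ⟨h3 ▸ hbd, Or.inr (Or.inl h3)⟩
      · exact ⟨h3 ▸ hcd, Or.inr (Or.inr (Or.inl h3))⟩
  rw [e1, e2, e3, e4]
  ring

theorem card4 {a b c d : V} (hab : a ≠ b) (hac : a ≠ c) (had : a ≠ d)
    (hbc : b ≠ c) (hbd : b ≠ d) (hcd : c ≠ d) : ({a, b, c, d} : Finset V).card = 4 := by
  rw [Finset.card_insert_of_notMem (by simp [hab, hac, had]),
    Finset.card_insert_of_notMem (by simp [hbc, hbd]),
    Finset.card_insert_of_notMem (by simp [hcd]), Finset.card_singleton]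

end core

/-! ### From ideals to sets -/

section ideal

variable {n : ℕ} {K : Type} [Field K]

/-- The exponent of the product of the variables in `S`. -/
noncomputable def ind (S : Finset (Fin n)) : Fin n →₀ ℕ := ∑ v ∈ S, Finsupp.single v 1

theorem ind_apply (S : Finset (Fin n)) (v : Fin n) : ind S v = if v ∈ S then 1 else 0 := by
  unfold ind
  rw [Finsupp.finsetSum_apply]
  simp [Finsupp.single_apply]

theorem prod_X (S : Finset (Fin n)) :
    ∏ v ∈ S, (X v : MvPolynomial (Fin n) K) = monomial (ind S) 1 := by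
  unfold ind
  rw [MvPolynomial.monomial_sum_one]
  rfl

theorem ind_le {S : Finset (Fin n)} {m : Fin n →₀ ℕ} : ind S ≤ m ↔ ∀ v ∈ S, 1 ≤ m v := by
  constructor
  · intro h v hv
    have h1 := h v
    rwa [ind_apply, if_pos hv] at h1
  · intro h v
    rw [ind_apply]
    split_ifs with hv
    · exact h v hv
    · exact Nat.zero_le _

theorem ind_le_ind {S T : Finset (Fin n)} : ind S ≤ ind T ↔ S ⊆ T := by
  rw [ind_le]
  constructor
  · intro h v hv
    have h1 := h v hv
    rw [ind_apply] at h1
    by_contra h2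
    rw [if_neg h2] at h1
    omega
  · intro h v hv
    rw [ind_apply, if_pos (h hv)]

theorem support_ind (S : Finset (Fin n)) : (ind S).support = S := by
  ext v
  rw [Finsupp.mem_support_iff, ind_apply]
  by_cases h : v ∈ S <;> simp [h]

theorem mem_span {M : Set (Fin n →₀ ℕ)} {m : Fin n →₀ ℕ} :
    monomial m (1 : K) ∈ Ideal.span ((fun m' => monomial m' (1 : K)) '' M) ↔
      ∃ m' ∈ M, m' ≤ m := by
  classical
  rw [MvPolynomial.mem_ideal_span_monomial_image, MvPolynomial.support_monomial,
    if_neg one_ne_zero]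
  simp

theorem mem_spanX {A : Set (Fin n)} {m : Fin n →₀ ℕ} :
    monomial m (1 : K) ∈ Ideal.span ((X : Fin n → MvPolynomial (Fin n) K) '' A) ↔
      ∃ v ∈ A, m v ≠ 0 := by
  classical
  rw [MvPolynomial.mem_ideal_span_X_image, MvPolynomial.support_monomial, if_neg one_ne_zero]
  simp

/-- The sets of `t` vertices that induce a connected subgraph. -/
def Conn (G : SimpleGraph (Fin n)) (t : ℕ) : Set (Finset (Fin n)) :=
  {S | S.card = t ∧ (G.induce (S : Set (Fin n))).Connected}

theorem connIdeal_eq (G : SimpleGraph (Fin n)) (t : ℕ) : connIdeal K G t =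
    Ideal.span ((fun m' => monomial m' (1 : K)) '' {m | ∃ S ∈ Conn G t, m = ind S}) := by
  unfold connIdeal
  congr 1
  ext f
  constructor
  · rintro ⟨S, h1, h2, rfl⟩
    exact ⟨ind S, ⟨S, ⟨h1, h2⟩, rfl⟩, (prod_X S).symm⟩
  · rintro ⟨m, ⟨S, ⟨h1, h2⟩, rfl⟩, rfl⟩
    exact ⟨S, h1, h2, (prod_X S).symm⟩

theorem isMinGen_iff (G : SimpleGraph (Fin n)) (t : ℕ) (m : Fin n →₀ ℕ) :
    IsMinGen (connIdeal K G t) m ↔ ∃ S ∈ Conn G t, m = ind S := by
  rw [connIdeal_eq]
  constructor
  · rintro ⟨h1, h2⟩
    obtain ⟨m', ⟨S, hS, rfl⟩, hm'⟩ := mem_span.1 h1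
    exact ⟨S, hS, (h2 _ (mem_span.2 ⟨_, ⟨S, hS, rfl⟩, le_refl _⟩) hm').symm⟩
  · rintro ⟨S, hS, rfl⟩
    refine ⟨mem_span.2 ⟨_, ⟨S, hS, rfl⟩, le_refl _⟩, ?_⟩
    intro m' hm' hle
    obtain ⟨m'', ⟨T, hT, rfl⟩, hm''⟩ := mem_span.1 hm'
    have h1 : T ⊆ S := ind_le_ind.1 (hm''.trans hle)
    have h2 : T = S := Finset.eq_of_subset_of_card_le h1 (by rw [hS.1, hT.1])
    rw [h2] at hm''
    exact le_antisymm hle hm''

theorem extract (G : SimpleGraph (Fin n)) (φ : Finset (Fin n) → ZMod 2)
    (hφ : ∀ T : Finset (Fin n), T.card = 4 → (∀ S ∈ Conn G 3, ¬ S ⊆ T) → dl φ T = 0)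
    (h : HasLinearQuotients (connIdeal K G 3)) :
    ∃ ψ : Finset (Fin n) → ZMod 2, (∀ R, R ∉ Conn G 3 → ψ R = φ R) ∧
      ∀ T : Finset (Fin n), T.card = 4 → dl ψ T = 0 := by
  obtain ⟨L, _, hL, hq⟩ := h
  have hLind : ∀ m ∈ L, m.support ∈ Conn G 3 ∧ m = ind m.support := by
    intro m hm
    obtain ⟨S, hS, rfl⟩ := (isMinGen_iff G 3 m).1 ((hL m).1 hm)
    rw [support_ind]
    exact ⟨hS, rfl⟩
  refine core (Conn G 3) φ (L.map Finsupp.support) ?_ ?_ ⟨φ, fun _ _ => rfl, ?_⟩
  · intro S hS
    obtain ⟨m, hm, rfl⟩ := List.mem_map.1 hS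
    exact ⟨(hLind m hm).1.1, (hLind m hm).1⟩
  · intro P' S P'' hP R hR
    obtain ⟨L₁, L₂', hLL, hL₁, hL₂'⟩ := List.map_eq_append_iff.1 hP
    obtain ⟨m, L₂, hL₂, hm, _⟩ := List.map_eq_cons_iff.1 hL₂'
    rw [hL₂] at hLL
    rw [← hL₁] at hR
    obtain ⟨r, hr, hrR⟩ := List.mem_map.1 hR
    obtain ⟨A, hA⟩ := hq L₁ m L₂ hLL (List.ne_nil_of_mem hr)
    have hmL : m ∈ L := by
      rw [hLL]
      exact List.mem_append_right _ List.mem_cons_self
    have hsub : ∀ x ∈ L₁, x ∈ L := by
      intro x hx
      rw [hLL]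
      exact List.mem_append_left _ hx
    have hmS : m = ind S := by rw [← hm]; exact (hLind m hmL).2
    have hrS : r = ind R := by rw [← hrR]; exact (hLind r (hsub r hr)).2
    have h1 : monomial (ind (R \ S)) (1 : K) ∈
        Ideal.span ((X : Fin n → MvPolynomial (Fin n) K) '' A) := by
      rw [← hA, MvPolynomial.monomial_mul, one_mul]
      refine mem_span.2 ⟨r, hr, ?_⟩
      rw [hrS, ind_le]
      intro v hv
      rw [Finsupp.add_apply, hmS, ind_apply, ind_apply]
      by_cases hvS : v ∈ S
      · rw [if_pos hvS]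
        omega
      · rw [if_pos (Finset.mem_sdiff.2 ⟨hv, hvS⟩)]
        omega
    obtain ⟨v, hvA, hv⟩ := mem_spanX.1 h1
    have hv2 : v ∈ R \ S := by
      by_contra h2
      rw [ind_apply, if_neg h2] at hv
      exact hv rfl
    have h2 : monomial (Finsupp.single v 1) (1 : K) ∈
        Ideal.span ((X : Fin n → MvPolynomial (Fin n) K) '' A) :=
      Ideal.subset_span ⟨v, hvA, rfl⟩
    rw [← hA, MvPolynomial.monomial_mul, one_mul] at h2
    obtain ⟨r', hr', hle⟩ := mem_span.1 h2
    refine ⟨r'.support, ?_, v, (Finset.mem_sdiff.1 hv2).1, (Finset.mem_sdiff.1 hv2).2, ?_⟩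
    · rw [← hL₁]
      exact List.mem_map.2 ⟨r', hr', rfl⟩
    · rw [(hLind r' (hsub r' hr')).2, ind_le] at hle
      intro w hw
      have h3 := hle w hw
      rw [Finsupp.add_apply, hmS, ind_apply] at h3
      rw [Finset.mem_insert]
      by_contra h4
      rw [not_or] at h4
      rw [if_neg h4.2, Finsupp.single_eq_of_ne h4.1] at h3
      omega
  · intro T hT hP
    refine hφ T hT fun S hS => hP S ?_
    refine List.mem_map.2 ⟨ind S, ?_, support_ind S⟩
    exact (hL _).2 ((isMinGen_iff G 3 _).2 ⟨S, hS, rfl⟩)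

end ideal

/-! ### The graph -/

/-- The adjacency matrix of the complement of the graph of the icosahedron. -/
def gb (a b : ℕ) : Bool :=
  Nat.testBit 343535062880681741673116355696582101929920 (12 * a + b)

/-- The complement of the graph of the icosahedron. -/
def Gr : SimpleGraph (Fin 12) where
  Adj a b := gb a b = true
  symm := ⟨by decide +kernel⟩
  loopless := ⟨by decide +kernel⟩

theorem gap : ∀ a b c d : Fin 12, gb a b = true → gb c d = true → a ≠ c → a ≠ d → b ≠ c →
    b ≠ d → gb a c = true ∨ gb a d = true ∨ gb b c = true ∨ gb b d = true := by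
  decide +kernel

theorem gapFree_Gr : GapFree Gr := gap

theorem ne_of_gb {a b : Fin 12} (h : gb a b = true) : a ≠ b := by
  intro h2
  have h3 : Gr.Adj a b := h
  rw [h2] at h3
  exact Gr.loopless.irrefl b h3

theorem conn3 {x y z : Fin 12} (hxy : gb x y = true) (hxz : gb x z = true) (hyz : y ≠ z) :
    ({x, y, z} : Finset (Fin 12)) ∈ Conn Gr 3 := by
  have h1 := ne_of_gb hxy
  have h2 := ne_of_gb hxz
  refine ⟨Finset.card_eq_three.2 ⟨x, y, z, h1, h2, hyz, rfl⟩, ?_⟩
  rw [SimpleGraph.connected_iff_exists_forall_reachable]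
  refine ⟨⟨x, by simp⟩, ?_⟩
  rintro ⟨w, hw⟩
  have hw2 : w = x ∨ w = y ∨ w = z := by simpa using hw
  rcases hw2 with rfl | rfl | rfl
  · exact SimpleGraph.Reachable.refl _
  · refine SimpleGraph.Adj.reachable ?_
    exact hxy
  · refine SimpleGraph.Adj.reachable ?_
    exact hxz

theorem indep3 {x y z : Fin 12} (hxy : gb x y = false) (hxz : gb x z = false) (h : x ≠ y) :
    ({x, y, z} : Finset (Fin 12)) ∉ Conn Gr 3 := by
  rintro ⟨_, hc⟩
  obtain ⟨w⟩ := hc.preconnected ⟨x, by simp⟩ ⟨y, by simp⟩
  cases w with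
  | nil => exact h rfl
  | @cons _ v _ hv _ =>
    obtain ⟨v, hvm⟩ := v
    have h2 : gb x v = true := hv
    have hv2 : v = x ∨ v = y ∨ v = z := by simpa using hvm
    rcases hv2 with rfl | rfl | rfl
    · exact ne_of_gb h2 rfl
    · rw [hxy] at h2
      exact absurd h2 (by decide)
    · rw [hxz] at h2
      exact absurd h2 (by decide)

/-- The value of the cochain on a triple. -/
def pv (x y z : ℕ) : Bool :=
  (2 ^ x + (2 ^ y + 2 ^ z) == 7) || (2 ^ x + (2 ^ y + 2 ^ z) == 11) ||
    (2 ^ x + (2 ^ y + 2 ^ z) == 131) || (2 ^ x + (2 ^ y + 2 ^ z) == 37)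

/-- The cochain. -/
def phi (S : Finset (Fin 12)) : ZMod 2 :=
  if ((∑ v ∈ S, 2 ^ (v : ℕ) == 7) || (∑ v ∈ S, 2 ^ (v : ℕ) == 11) ||
    (∑ v ∈ S, 2 ^ (v : ℕ) == 131) || (∑ v ∈ S, 2 ^ (v : ℕ) == 37)) = true then 1 else 0

theorem phi3 {x y z : Fin 12} (hxy : x ≠ y) (hxz : x ≠ z) (hyz : y ≠ z) :
    phi {x, y, z} = if pv x y z = true then 1 else 0 := by
  unfold phi
  rw [Finset.sum_insert (by simp [hxy, hxz]), Finset.sum_insert (by simp [hyz]),
    Finset.sum_singleton]
  rfl

/-- Either some triple of the four vertices is connected or the cochain is closed on them. -/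
def chk (a b c d : ℕ) : Bool :=
  (gb a b && gb a c) || (gb a b && gb a d) || (gb a c && gb a d) ||
  (gb b a && gb b c) || (gb b a && gb b d) || (gb b c && gb b d) ||
  (gb c a && gb c b) || (gb c a && gb c d) || (gb c b && gb c d) ||
  (gb d a && gb d b) || (gb d a && gb d c) || (gb d b && gb d c) ||
  !((pv b c d ^^ pv a c d) ^^ (pv a b d ^^ pv a b c))

/-- `chk` for distinct arguments. -/
def chk2 (a b c d : ℕ) : Bool :=
  a == b || a == c || a == d || b == c || b == d || c == d || chk a b c d

theorem chk2_all : ∀ a b c d : Fin 12, chk2 a b c d = true := by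
  decide +kernel

theorem chk_all (a b c d : Fin 12) (hab : a ≠ b) (hac : a ≠ c) (had : a ≠ d) (hbc : b ≠ c)
    (hbd : b ≠ d) (hcd : c ≠ d) : chk a b c d = true := by
  have h1 := chk2_all a b c d
  have e : ∀ {x y : Fin 12}, x ≠ y → ((x : ℕ) == (y : ℕ)) = false := by
    intro x y h
    rw [beq_eq_false_iff_ne]
    exact fun h2 => h (Fin.ext h2)
  unfold chk2 at h1
  rw [e hab, e hac, e had, e hbc, e hbd, e hcd] at h1
  simpa only [Bool.false_or] using h1

theorem four_bools : ∀ p q r s : Bool, ((p ^^ q) ^^ (r ^^ s)) = false →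
    (if p = true then (1 : ZMod 2) else 0) + (if q = true then 1 else 0) +
      (if r = true then 1 else 0) + (if s = true then 1 else 0) = 0 := by
  decide

theorem closed (T : Finset (Fin 12)) (hT : T.card = 4) (h : ∀ S ∈ Conn Gr 3, ¬ S ⊆ T) :
    dl phi T = 0 := by
  obtain ⟨a, t, hat, rfl, ht⟩ := Finset.card_eq_succ.1 hT
  obtain ⟨b, c, d, hbc, hbd, hcd, rfl⟩ := Finset.card_eq_three.1 ht
  have hab : a ≠ b := fun h => hat (by simp [h])
  have hac : a ≠ c := fun h => hat (by simp [h])
  have had : a ≠ d := fun h => hat (by simp [h])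
  have key : ∀ x y z : Fin 12, gb x y = true → gb x z = true → y ≠ z →
      ({x, y, z} : Finset (Fin 12)) ⊆ {a, b, c, d} → False :=
    fun x y z h1 h2 h3 h4 => h _ (conn3 h1 h2 h3) h4
  have h1 := chk_all a b c d hab hac had hbc hbd hcd
  simp only [chk, Bool.or_eq_true, Bool.and_eq_true, Bool.not_eq_true'] at h1
  rcases h1 with (((((((((((h1 | h1) | h1) | h1) | h1) | h1) | h1) | h1) | h1) | h1) | h1) | h1) |
    h1
  · exact (key a b c h1.1 h1.2 hbc (by intro x; simp; tauto)).elim
  · exact (key a b d h1.1 h1.2 hbd (by intro x; simp; tauto)).elim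
  · exact (key a c d h1.1 h1.2 hcd (by intro x; simp; tauto)).elim
  · exact (key b a c h1.1 h1.2 hac (by intro x; simp; tauto)).elim
  · exact (key b a d h1.1 h1.2 had (by intro x; simp; tauto)).elim
  · exact (key b c d h1.1 h1.2 hcd (by intro x; simp; tauto)).elim
  · exact (key c a b h1.1 h1.2 hab (by intro x; simp; tauto)).elim
  · exact (key c a d h1.1 h1.2 had (by intro x; simp; tauto)).elim
  · exact (key c b d h1.1 h1.2 hbd (by intro x; simp; tauto)).elim
  · exact (key d a b h1.1 h1.2 hab (by intro x; simp; tauto)).elim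
  · exact (key d a c h1.1 h1.2 hac (by intro x; simp; tauto)).elim
  · exact (key d b c h1.1 h1.2 hbc (by intro x; simp; tauto)).elim
  · rw [dl4 phi hab hac had hbc hbd hcd, phi3 hbc hbd hcd, phi3 hac had hcd, phi3 hab had hbd,
      phi3 hab hac hbc]
    exact four_bools _ _ _ _ h1

theorem no_closed (ψ : Finset (Fin 12) → ZMod 2) (h1 : ∀ R, R ∉ Conn Gr 3 → ψ R = phi R)
    (h2 : ∀ T : Finset (Fin 12), T.card = 4 → dl ψ T = 0) : False := by
  have hv : ∀ x y z : Fin 12, x ≠ y → x ≠ z → y ≠ z → gb x y = false → gb x z = false →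
      ψ {x, y, z} = if pv x y z = true then 1 else 0 := by
    intro x y z hxy hxz hyz h3 h4
    rw [h1 _ (indep3 h3 h4 hxy), phi3 hxy hxz hyz]
  have he : ∀ a b c d : Fin 12, a ≠ b → a ≠ c → a ≠ d → b ≠ c → b ≠ d → c ≠ d →
      ψ {b, c, d} + ψ {a, c, d} + ψ {a, b, d} + ψ {a, b, c} = 0 := by
    intro a b c d hab hac had hbc hbd hcd
    rw [← dl4 ψ hab hac had hbc hbd hcd]
    exact h2 _ (card4 hab hac had hbc hbd hcd)
  have e0 := he 0 1 2 7 (by decide) (by decide) (by decide) (by decide) (by decide) (by decide)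
  rw [hv 1 2 7 (by decide) (by decide) (by decide) (by decide +kernel) (by decide +kernel),
    if_neg (by decide +kernel)] at e0
  have e1 := he 0 1 5 6 (by decide) (by decide) (by decide) (by decide) (by decide) (by decide)
  rw [hv 1 5 6 (by decide) (by decide) (by decide) (by decide +kernel) (by decide +kernel),
    if_neg (by decide +kernel)] at e1
  have e2 := he 0 1 6 7 (by decide) (by decide) (by decide) (by decide) (by decide) (by decide)
  rw [hv 1 6 7 (by decide) (by decide) (by decide) (by decide +kernel) (by decide +kernel),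
    if_neg (by decide +kernel)] at e2
  have e3 := he 0 2 3 8 (by decide) (by decide) (by decide) (by decide) (by decide) (by decide)
  rw [hv 2 3 8 (by decide) (by decide) (by decide) (by decide +kernel) (by decide +kernel),
    if_neg (by decide +kernel)] at e3
  have e4 := he 0 2 7 8 (by decide) (by decide) (by decide) (by decide) (by decide) (by decide)
  rw [hv 2 7 8 (by decide) (by decide) (by decide) (by decide +kernel) (by decide +kernel),
    if_neg (by decide +kernel)] at e4
  have e5 := he 0 3 4 9 (by decide) (by decide) (by decide) (by decide) (by decide) (by decide)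
  rw [hv 3 4 9 (by decide) (by decide) (by decide) (by decide +kernel) (by decide +kernel),
    if_neg (by decide +kernel)] at e5
  have e6 := he 0 3 8 9 (by decide) (by decide) (by decide) (by decide) (by decide) (by decide)
  rw [hv 3 8 9 (by decide) (by decide) (by decide) (by decide +kernel) (by decide +kernel),
    if_neg (by decide +kernel)] at e6
  have e7 := he 0 4 5 10 (by decide) (by decide) (by decide) (by decide) (by decide) (by decide)
  rw [hv 4 5 10 (by decide) (by decide) (by decide) (by decide +kernel) (by decide +kernel),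
    if_neg (by decide +kernel)] at e7
  have e8 := he 0 4 9 10 (by decide) (by decide) (by decide) (by decide) (by decide) (by decide)
  rw [hv 4 9 10 (by decide) (by decide) (by decide) (by decide +kernel) (by decide +kernel),
    if_neg (by decide +kernel)] at e8
  have e9 := he 0 5 6 10 (by decide) (by decide) (by decide) (by decide) (by decide) (by decide)
  rw [hv 5 6 10 (by decide) (by decide) (by decide) (by decide +kernel) (by decide +kernel),
    if_neg (by decide +kernel)] at e9
  have e10 := he 0 6 7 11 (by decide) (by decide) (by decide) (by decide) (by decide) (by decide)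
  rw [hv 6 7 11 (by decide) (by decide) (by decide) (by decide +kernel) (by decide +kernel),
    if_neg (by decide +kernel)] at e10
  have e11 := he 0 6 10 11 (by decide) (by decide) (by decide) (by decide) (by decide) (by decide)
  rw [hv 6 10 11 (by decide) (by decide) (by decide) (by decide +kernel) (by decide +kernel),
    if_neg (by decide +kernel)] at e11
  have e12 := he 0 7 8 11 (by decide) (by decide) (by decide) (by decide) (by decide) (by decide)
  rw [hv 7 8 11 (by decide) (by decide) (by decide) (by decide +kernel) (by decide +kernel),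
    if_neg (by decide +kernel)] at e12
  have e13 := he 0 8 9 11 (by decide) (by decide) (by decide) (by decide) (by decide) (by decide)
  rw [hv 8 9 11 (by decide) (by decide) (by decide) (by decide +kernel) (by decide +kernel),
    if_neg (by decide +kernel)] at e13
  have e14 := he 0 9 10 11 (by decide) (by decide) (by decide) (by decide) (by decide) (by decide)
  rw [hv 9 10 11 (by decide) (by decide) (by decide) (by decide +kernel) (by decide +kernel),
    if_neg (by decide +kernel)] at e14
  have l0 := hv 0 1 2 (by decide) (by decide) (by decide) (by decide +kernel) (by decide +kernel)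
  rw [if_pos (by decide +kernel)] at l0
  have l1 := hv 0 1 5 (by decide) (by decide) (by decide) (by decide +kernel) (by decide +kernel)
  rw [if_neg (by decide +kernel)] at l1
  have l2 := hv 0 2 3 (by decide) (by decide) (by decide) (by decide +kernel) (by decide +kernel)
  rw [if_neg (by decide +kernel)] at l2
  have l3 := hv 0 3 4 (by decide) (by decide) (by decide) (by decide +kernel) (by decide +kernel)
  rw [if_neg (by decide +kernel)] at l3
  have l4 := hv 0 4 5 (by decide) (by decide) (by decide) (by decide +kernel) (by decide +kernel)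
  rw [if_neg (by decide +kernel)] at l4
  have two : (2 : ZMod 2) = 0 := rfl
  have h10 : (1 : ZMod 2) = 0 := by
    linear_combination
      e0 + e1 + e2 + e3 + e4 + e5 + e6 + e7 + e8 + e9 + e10 + e11 + e12 + e13 + e14
      - (l0 + l1 + l2 + l3 + l4)
      - (ψ {0, 1, 6} + ψ {0, 1, 7} + ψ {0, 2, 7} + ψ {0, 2, 8} + ψ {0, 3, 8} + ψ {0, 3, 9} + ψ
      {0, 4, 9} + ψ {0, 4, 10} + ψ {0, 5, 6} + ψ {0, 5, 10} + ψ {0, 6, 7} + ψ {0, 6, 10} + ψ
      {0, 6, 11} + ψ {0, 7, 8} + ψ {0, 7, 11} + ψ {0, 8, 9} + ψ {0, 8, 11} + ψ {0, 9, 10} + ψ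
      {0, 9, 11} + ψ {0, 10, 11}) * two
  exact absurd h10 (by decide)

/-- The complement `Gr` of the graph of the icosahedron is gap-free, and over every field its
`3`-connected ideal does not have linear quotients. -/
theorem result : ∃ G : SimpleGraph (Fin 12), GapFree G ∧
    ∀ (K : Type) [Field K], ¬ HasLinearQuotients (connIdeal K G 3) := by
  refine ⟨Gr, gapFree_Gr, ?_⟩
  intro K _ h
  obtain ⟨ψ, h1, h2⟩ := extract Gr phi closed h
  exact no_closed ψ h1 h2

end Pool.Agent.Results.MP_c1f45e_al.Icosahedron
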